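import Mathlib

/-!
Lemma W2 (weights, two slots) of proofs 252, section 3, for problem MP_a4b3b2_al.
`A`, `B` abelian of exponent two, `z` an endomorphism with `z^5 + z^2 + 1 = 0`, `k` bimultiplicative
and invariant under `z`: then `k` is trivial.
-/

namespace H58.FS

theorem W2_aux {M : Type*} [AddCommGroup M] (z : M →+ M) (h2 : ∀ m : M, m + m = 0)
    (h : ∀ m : M, z (z (z (z (z m)))) = m + z (z m)) (m : M) :
    (z (z (z (z (z (z m))))) + z (z (z (z m)))) +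
      (z (z (z (z (z (z (z (z (z (z m))))))))) + z (z (z (z (z (z (z (z m)))))))
       + (z (z (z (z (z (z (z (z m))))))) + z (z (z (z (z (z m))))))) = m := by
  simp only [h, map_add]
  have h2z : ∀ m : M, (2 : ℤ) • m = 0 := fun m => by rw [two_zsmul]; exact h2 m
  have h4z : ∀ m : M, (4 : ℤ) • m = 0 := fun m => by
    rw [show (4 : ℤ) = 2 + 2 by norm_num, add_smul, h2z]; simp
  have h3z : ∀ m : M, (3 : ℤ) • m = m := fun m => by
    rw [show (3 : ℤ) = 2 + 1 by norm_num, add_smul, h2z]; simp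
  abel_nf
  simp [h2z, h4z, h3z]

/-- Multiplicative form of `W2_aux` inside an abelian subgroup of exponent two:
every `a` in `A` is `x * z^4 x * z^2 x` with `x` in `A`. -/
theorem W2_unit {H : Type*} [Group H] (A : Subgroup H) (z : H →* H)
    (cA : ∀ a ∈ A, ∀ b ∈ A, a * b = b * a) (eA : ∀ a ∈ A, a * a = 1)
    (sA : ∀ a ∈ A, z a ∈ A) (hA : ∀ a ∈ A, z (z (z (z (z a)))) = a * z (z a))
    (a : H) (ha : a ∈ A) :
    ∃ x ∈ A, a = x * z (z (z (z x))) * z (z x) := by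
  let I : CommGroup A :=
    { (inferInstance : Group A) with
      mul_comm := fun a b => Subtype.ext (cA a.1 a.2 b.1 b.2) }
  let z' : A →* A := (z.comp A.subtype).codRestrict A (fun x => sA x.1 x.2)
  have hz' : ∀ x : A, ((z' x : A) : H) = z (x : H) := fun x => rfl
  have key := W2_aux (M := Additive A) (MonoidHom.toAdditive z')
    (fun m => by
      apply Additive.toMul.injective
      exact Subtype.ext (eA _ (Additive.toMul m).2))
    (fun m => by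
      apply Additive.toMul.injective
      exact Subtype.ext (hA _ (Additive.toMul m).2)) (Additive.ofMul (⟨a, ha⟩ : A))
  have key2 := congrArg (fun t : Additive A => ((Additive.toMul t : A) : H)) key
  refine ⟨z (z (z (z (z (z a))))) * z (z (z (z a))), ?_, ?_⟩
  · exact A.mul_mem (sA _ (sA _ (sA _ (sA _ (sA _ (sA _ ha))))))
      (sA _ (sA _ (sA _ (sA _ ha))))
  · have e : (z (z (z (z (z (z a))))) * z (z (z (z a)))) *
        ((z (z (z (z (z (z (z (z (z (z a))))))))) * z (z (z (z (z (z (z (z a))))))))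
       * (z (z (z (z (z (z (z (z a))))))) * z (z (z (z (z (z a))))))) = a := key2
    simp only [map_mul]
    rw [mul_assoc]
    exact e.symm

theorem W2 {H1 H2 G : Type*} [Group H1] [Group H2] [Group G] (A : Subgroup H1) (B : Subgroup H2)
    (z1 : H1 →* H1) (z2 : H2 →* H2)
    (cA : ∀ a ∈ A, ∀ b ∈ A, a * b = b * a) (eA : ∀ a ∈ A, a * a = 1)
    (sA : ∀ a ∈ A, z1 a ∈ A) (sB : ∀ a ∈ B, z2 a ∈ B)
    (hA : ∀ a ∈ A, z1 (z1 (z1 (z1 (z1 a)))) = a * z1 (z1 a))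
    (hB : ∀ a ∈ B, z2 (z2 (z2 (z2 (z2 a)))) = a * z2 (z2 a))
    (k : H1 → H2 → G)
    (k1 : ∀ a ∈ A, ∀ a' ∈ A, ∀ b ∈ B, k (a * a') b = k a b * k a' b)
    (k2 : ∀ a ∈ A, ∀ b ∈ B, ∀ b' ∈ B, k a (b * b') = k a b * k a b')
    (ki : ∀ a ∈ A, ∀ b ∈ B, k (z1 a) (z2 b) = k a b) :
    ∀ a ∈ A, ∀ b ∈ B, k a b = 1 := by
  have k11 : ∀ b ∈ B, k 1 b = 1 := fun b hb => by
    have := k1 1 A.one_mem 1 A.one_mem b hb
    rw [mul_one] at this
    exact (mul_eq_left.mp this.symm)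
  have kk : ∀ a ∈ A, ∀ b ∈ B, k a b * k a b = 1 := fun a ha b hb => by
    rw [← k1 a ha a ha b hb, eA a ha, k11 b hb]
  -- first relation
  have r1 : ∀ a ∈ A, ∀ b ∈ B, k a (z2 (z2 b)) * (k (z1 (z1 a)) b * k a b) = 1 := by
    intro a ha b hb
    have ha2 := sA _ (sA _ ha)
    have hb2 := sB _ (sB _ hb)
    have e : k a b = k a b * k a (z2 (z2 b)) * (k (z1 (z1 a)) b * k a b) := by
      calc k a b = k (z1 (z1 (z1 (z1 (z1 a))))) (z2 (z2 (z2 (z2 (z2 b))))) := by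
            rw [ki _ (sA _ (sA _ (sA _ (sA _ ha)))) _ (sB _ (sB _ (sB _ (sB _ hb)))),
              ki _ (sA _ (sA _ (sA _ ha))) _ (sB _ (sB _ (sB _ hb))),
              ki _ (sA _ (sA _ ha)) _ (sB _ (sB _ hb)), ki _ (sA _ ha) _ (sB _ hb), ki _ ha _ hb]
        _ = k (a * z1 (z1 a)) (b * z2 (z2 b)) := by rw [hA a ha, hB b hb]
        _ = k a b * k a (z2 (z2 b)) * (k (z1 (z1 a)) b * k a b) := by
            rw [k1 a ha _ ha2 _ (B.mul_mem hb hb2), k2 a ha b hb _ hb2, k2 _ ha2 b hb _ hb2,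
              ki _ (sA _ ha) _ (sB _ hb), ki _ ha _ hb]
    rw [mul_assoc] at e
    exact (mul_eq_left.mp e.symm)
  intro a ha b hb
  obtain ⟨x, hx, rfl⟩ := W2_unit A z1 cA eA sA hA a ha
  have hx2 := sA _ (sA _ hx)
  have hx4 := sA _ (sA _ hx2)
  have r2 := r1 _ hx2 b hb
  rw [ki _ (sA _ hx) _ (sB _ hb), ki _ hx _ hb] at r2
  rw [k1 _ (A.mul_mem hx hx4) _ hx2 b hb, k1 _ hx _ hx4 b hb, mul_assoc]
  exact r2

theorem conv {X : Type*} [Group X] (M : Subgroup X) (z : X →* X) (hz : ∀ m ∈ M, z m ∈ M)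
    (hM2 : ∀ m ∈ M, m * m = 1)
    (hΦ : ∀ m ∈ M, z (z (z (z (z m)))) * z (z m) * m = 1) :
    ∀ m ∈ M, z (z (z (z (z m)))) = m * z (z m) := by
  intro m hm
  have hm2 := hz _ (hz _ hm)
  have e := hΦ m hm
  rw [mul_assoc] at e
  have e2 := eq_inv_of_mul_eq_one_left e
  rw [e2, mul_inv_rev]
  have i1 : m⁻¹ = m := inv_eq_of_mul_eq_one_left (hM2 m hm)
  have i2 : (z (z m))⁻¹ = z (z m) := inv_eq_of_mul_eq_one_left (hM2 _ hm2)
  rw [i1, i2]

/-- The form used in `Pool.Agent.H86.FS.W2`. -/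
theorem W2' {A B C : Type*} [Group A] [Group B] [Group C] (M : Subgroup A) (N : Subgroup B)
    (z : A →* A) (z' : B →* B) (hz : ∀ m ∈ M, z m ∈ M) (hz' : ∀ n ∈ N, z' n ∈ N)
    (hM : ∀ m ∈ M, ∀ m' ∈ M, Commute m m')
    (hM2 : ∀ m ∈ M, m * m = 1) (hN2 : ∀ n ∈ N, n * n = 1)
    (hMΦ : ∀ m ∈ M, z (z (z (z (z m)))) * z (z m) * m = 1)
    (hNΦ : ∀ n ∈ N, z' (z' (z' (z' (z' n)))) * z' (z' n) * n = 1)
    (κ : A → B → C)
    (h1 : ∀ m ∈ M, ∀ m' ∈ M, ∀ n ∈ N, κ (m * m') n = κ m n * κ m' n)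
    (h2 : ∀ m ∈ M, ∀ n ∈ N, ∀ n' ∈ N, κ m (n * n') = κ m n * κ m n')
    (hκ : ∀ m ∈ M, ∀ n ∈ N, κ (z m) (z' n) = κ m n) :
    ∀ m ∈ M, ∀ n ∈ N, κ m n = 1 :=
  W2 M N z z' (fun a ha b hb => hM a ha b hb) hM2 hz hz' (conv M z hz hM2 hMΦ)
    (conv N z' hz' hN2 hNΦ) κ h1 h2 hκ

end H58.FS
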